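import Mathlib

/-! # The Fejér kernel `v_R(y) = (R/2π) sinc(Ry/2)²` (lemma job ESS of project MM, helper285) -/

set_option autoImplicit false

namespace Q285MM

open MeasureTheory Set Filter Topology

/-- the Fejér kernel -/
noncomputable def v (R y : ℝ) : ℝ := R / (2 * Real.pi) * Real.sinc (R * y / 2) ^ 2

lemma v_nonneg {R : ℝ} (hR : 0 < R) (y : ℝ) : 0 ≤ v R y := by
  have := Real.pi_pos
  unfold v; positivity

lemma v_cont (R : ℝ) : Continuous (v R) := by
  unfold v
  have := Real.continuous_sinc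
  fun_prop

lemma v_even (R y : ℝ) : v R (-y) = v R y := by
  unfold v
  rw [show R * -y / 2 = -(R * y / 2) by ring, Real.sinc_neg]

lemma v_le {R : ℝ} (hR : 0 < R) (y : ℝ) : v R y ≤ R / (2 * Real.pi) := by
  unfold v
  have h := Real.abs_sinc_le_one (R * y / 2)
  have h2 : Real.sinc (R * y / 2) ^ 2 ≤ 1 := by
    rw [← sq_abs]; exact pow_le_one₀ (abs_nonneg _) h
  have : 0 ≤ R / (2 * Real.pi) := by have := Real.pi_pos; positivity
  nlinarith

lemma v_eq_cos {R : ℝ} (hR : 0 < R) {y : ℝ} (hy : y ≠ 0) :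
    v R y = (1 - Real.cos (R * y)) / (Real.pi * R * y ^ 2) := by
  unfold v
  have h : R * y / 2 ≠ 0 := by
    have := hR.ne'
    positivity
  rw [Real.sinc_of_ne_zero h]
  have h2 : Real.cos (R * y) = 1 - 2 * Real.sin (R * y / 2) ^ 2 := by
    have h3 := Real.cos_two_mul (R * y / 2)
    have h4 := Real.sin_sq_add_cos_sq (R * y / 2)
    rw [show 2 * (R * y / 2) = R * y by ring] at h3
    rw [h3]
    linarith
  rw [h2]
  have := Real.pi_ne_zero
  have := hR.ne'
  field_simp
  ring

lemma v_mul_sq {R : ℝ} (hR : 0 < R) (y : ℝ) : v R y * y ^ 2 ≤ 2 / (Real.pi * R) := by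
  have hpi := Real.pi_pos
  by_cases hy : y = 0
  · subst hy; simp; positivity
  · rw [v_eq_cos hR hy]
    have h1 : (1 - Real.cos (R * y)) / (Real.pi * R * y ^ 2) * y ^ 2 =
        (1 - Real.cos (R * y)) / (Real.pi * R) := by
      field_simp
    rw [h1]
    have := Real.neg_one_le_cos (R * y)
    gcongr
    linarith

lemma v_integrable {R : ℝ} (hR : 0 < R) : Integrable (v R) := by
  have h1 : Integrable (fun y : ℝ => (R / (2 * Real.pi) + 2 / (Real.pi * R)) * (1 + y ^ 2)⁻¹) :=
    integrable_inv_one_add_sq.const_mul _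
  refine h1.mono' (v_cont R).aestronglyMeasurable (Eventually.of_forall fun y => ?_)
  rw [Real.norm_of_nonneg (v_nonneg hR y), ← div_eq_mul_inv, le_div_iff₀ (by positivity)]
  have h2 := v_le hR y
  have h3 := v_mul_sq hR y
  linarith [mul_add (v R y) 1 (y ^ 2)]

lemma v_eq_int {R : ℝ} (hR : 0 < R) (y : ℝ) :
    v R y = 1 / Real.pi * ∫ t in (0 : ℝ)..R, (1 - t / R) * Real.cos (t * y) := by
  have hpi := Real.pi_ne_zero
  have hR' := hR.ne'
  by_cases hy : y = 0
  · subst hy
    have h1 : ∀ t ∈ Set.uIcc (0:ℝ) R, HasDerivAt (fun t : ℝ => t - t ^ 2 / (2 * R))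
        ((1 - t / R) * Real.cos (t * 0)) t := by
      intro t _
      have e5 := (hasDerivAt_id t).sub ((hasDerivAt_pow 2 t).div_const (2 * R))
      refine e5.congr_deriv ?_
      rw [mul_zero, Real.cos_zero]
      push_cast
      field_simp
    rw [intervalIntegral.integral_eq_sub_of_hasDerivAt h1
      (Continuous.intervalIntegrable (by fun_prop) _ _)]
    unfold v
    rw [mul_zero, zero_div, Real.sinc_zero]
    field_simp
    ring
  · have h1 : ∀ t ∈ Set.uIcc (0:ℝ) R, HasDerivAt
        (fun t => (1 - t / R) * Real.sin (t * y) / y - Real.cos (t * y) / (R * y ^ 2))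
        ((1 - t / R) * Real.cos (t * y)) t := by
      intro t _
      have e1 : HasDerivAt (fun t : ℝ => t * y) y t := by
        simpa using (hasDerivAt_id t).mul_const y
      have e2 : HasDerivAt (fun t : ℝ => Real.sin (t * y)) (Real.cos (t * y) * y) t := e1.sin
      have e3 : HasDerivAt (fun t : ℝ => Real.cos (t * y)) (-Real.sin (t * y) * y) t := e1.cos
      have e4 : HasDerivAt (fun t : ℝ => 1 - t / R) (-(1 / R)) t := by
        simpa using ((hasDerivAt_id t).div_const R).const_sub 1
      have e5 := ((e4.mul e2).div_const y).sub (e3.div_const (R * y ^ 2))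
      refine e5.congr_deriv ?_
      field_simp
      ring
    rw [intervalIntegral.integral_eq_sub_of_hasDerivAt h1
      (Continuous.intervalIntegrable (by fun_prop) _ _), v_eq_cos hR hy]
    simp only [div_self hR', sub_self, zero_mul, zero_div, Real.sin_zero, mul_zero, Real.cos_zero,
      sub_zero]
    field_simp
    ring

/-- the tent function -/
noncomputable def tt (x : ℝ) : ℝ := max (1 - |x|) 0

lemma tt_cont : Continuous tt := by unfold tt; fun_prop

lemma tt_compact : HasCompactSupport tt := by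
  apply HasCompactSupport.intro (isCompact_Icc (a := (-1:ℝ)) (b := 1))
  intro x hx
  unfold tt
  rw [max_eq_right]
  have : ¬ |x| ≤ 1 := fun h => hx (abs_le.mp h)
  linarith

open FourierTransform in
lemma fourier_tt (w : ℝ) : 𝓕 (fun x => (tt x : ℂ)) w =
    ((2 * ∫ t in (0:ℝ)..1, (1 - t) * Real.cos (2 * Real.pi * t * w) : ℝ) : ℂ) := by
  have hti : Integrable (fun x => (tt x : ℂ)) :=
    (tt_cont.integrable_of_hasCompactSupport tt_compact).ofReal
  have hi : Integrable (fun x : ℝ => Complex.exp (((-2 * Real.pi * x * w : ℝ) : ℂ) * Complex.I) *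
      (tt x : ℂ)) := by
    apply hti.bdd_mul (c := 1)
    · apply Continuous.aestronglyMeasurable; fun_prop
    · refine Filter.Eventually.of_forall fun v => ?_
      rw [Complex.norm_exp_ofReal_mul_I]
  rw [Real.fourier_real_eq_integral_exp_smul]
  simp only [smul_eq_mul]
  rw [← intervalIntegral.integral_Iic_add_Ioi (b := 0) hi.integrableOn hi.integrableOn]
  have e1 := integral_comp_neg_Ioi (0:ℝ) (fun x : ℝ =>
    Complex.exp (((-2 * Real.pi * x * w : ℝ) : ℂ) * Complex.I) * (tt x : ℂ))
  rw [neg_zero] at e1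
  rw [← e1, ← integral_add (hi.comp_neg).integrableOn hi.integrableOn]
  have e2 : ∀ x : ℝ, Complex.exp (((-2 * Real.pi * -x * w : ℝ) : ℂ) * Complex.I) * (tt (-x) : ℂ) +
      Complex.exp (((-2 * Real.pi * x * w : ℝ) : ℂ) * Complex.I) * (tt x : ℂ) =
      ((2 * (tt x * Real.cos (2 * Real.pi * x * w)) : ℝ) : ℂ) := by
    intro x
    have e3 : tt (-x) = tt x := by unfold tt; rw [abs_neg]
    rw [e3]
    have e4 : (((-2 * Real.pi * -x * w : ℝ) : ℂ) * Complex.I) =
        ((2 * Real.pi * x * w : ℝ) : ℂ) * Complex.I := by push_cast; ring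
    have e5 : (((-2 * Real.pi * x * w : ℝ) : ℂ) * Complex.I) =
        -((2 * Real.pi * x * w : ℝ) : ℂ) * Complex.I := by push_cast; ring
    rw [e4, e5, ← add_mul, ← Complex.two_cos]
    push_cast
    ring
  simp_rw [e2]
  rw [integral_complex_ofReal, integral_const_mul]
  congr 2
  rw [intervalIntegral.integral_of_le zero_le_one]
  have e6 : ∫ x in Ioi (0:ℝ), tt x * Real.cos (2 * Real.pi * x * w) =
      ∫ x in Ioc (0:ℝ) 1, tt x * Real.cos (2 * Real.pi * x * w) := by
    apply setIntegral_eq_of_subset_of_forall_sdiff_eq_zero measurableSet_Ioi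
    · intro x hx; exact hx.1
    · intro x hx
      have h1 : 1 < x := by
        by_contra h
        exact hx.2 ⟨hx.1, not_lt.mp h⟩
      have : tt x = 0 := by
        unfold tt
        rw [max_eq_right]
        rw [abs_of_pos (by linarith)]
        linarith
      rw [this, zero_mul]
  rw [e6]
  apply setIntegral_congr_fun measurableSet_Ioc
  intro x hx
  have : tt x = 1 - x := by
    unfold tt
    rw [abs_of_pos hx.1, max_eq_left (by linarith [hx.2])]
  simp only [this]

open FourierTransform in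
lemma v_one {R : ℝ} (hR : 0 < R) : ∫ y, v R y = 1 := by
  have hpi := Real.pi_pos
  have h0 : ∀ w : ℝ, 𝓕 (fun x => (tt x : ℂ)) w = ((v (2 * Real.pi) w : ℝ) : ℂ) := by
    intro w
    rw [fourier_tt, v_eq_int (by positivity)]
    congr 1
    have h1 := intervalIntegral.integral_comp_mul_left (a := 0) (b := 1)
      (fun t => (1 - t / (2 * Real.pi)) * Real.cos (t * w)) (c := 2 * Real.pi) (by positivity)
    rw [mul_zero, mul_one, smul_eq_mul] at h1
    have h2 : ∫ t in (0:ℝ)..2 * Real.pi, (1 - t / (2 * Real.pi)) * Real.cos (t * w) =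
        2 * Real.pi * ∫ t in (0:ℝ)..1, (1 - 2 * Real.pi * t / (2 * Real.pi)) *
          Real.cos (2 * Real.pi * t * w) := by
      rw [h1, ← mul_assoc, mul_inv_cancel₀ (by positivity), one_mul]
    rw [h2]
    have h3 : ∀ t : ℝ, 2 * Real.pi * t / (2 * Real.pi) = t := by
      intro t; field_simp
    simp_rw [h3]
    rw [← mul_assoc]
    congr 1
    field_simp
  have hti : Integrable (fun x => (tt x : ℂ)) :=
    (tt_cont.integrable_of_hasCompactSupport tt_compact).ofReal
  have hc : Continuous (fun x => (tt x : ℂ)) := Complex.continuous_ofReal.comp tt_cont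
  have hF : 𝓕 (fun x => (tt x : ℂ)) = fun w => ((v (2 * Real.pi) w : ℝ) : ℂ) := funext h0
  have hFi : Integrable (𝓕 (fun x => (tt x : ℂ))) := by
    rw [hF]
    exact (v_integrable (by positivity)).ofReal
  have h1 := congrFun (hc.fourierInv_fourier_eq hti hFi) 0
  rw [hF, Real.fourierInv_eq'] at h1
  simp only [inner_zero_right, mul_zero, Complex.ofReal_zero, zero_mul, Complex.exp_zero,
    one_smul] at h1
  rw [integral_complex_ofReal] at h1
  have h2 : ∫ y, v (2 * Real.pi) y = 1 := by
    have h3 : tt 0 = 1 := by unfold tt; simp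
    rw [h3] at h1
    exact_mod_cast h1
  -- scaling
  have h4 := Measure.integral_comp_mul_left (fun y => v (2 * Real.pi) y) (R / (2 * Real.pi))
  have h5 : ∀ y, v (2 * Real.pi) (R / (2 * Real.pi) * y) = 2 * Real.pi / R * v R y := by
    intro y
    unfold v
    rw [show 2 * Real.pi * (R / (2 * Real.pi) * y) / 2 = R * y / 2 by field_simp]
    field_simp
  simp only [h5] at h4
  rw [integral_const_mul, h2, smul_eq_mul, mul_one, abs_of_pos (by positivity)] at h4
  have h6 : (R / (2 * Real.pi))⁻¹ = 2 * Real.pi / R := by rw [inv_div]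
  rw [h6] at h4
  have h7 : 0 < 2 * Real.pi / R := by positivity
  have h8 : 2 * Real.pi / R * (∫ y, v R y) = 2 * Real.pi / R * 1 := by rw [h4, mul_one]
  exact mul_left_cancel₀ h7.ne' h8

lemma v_half_tail {R h : ℝ} (hR : 0 < R) (hh : 0 < h) :
    ∫ y in Ioi h, v R y ≤ 2 / (Real.pi * R * h) := by
  have hpi := Real.pi_pos
  have i1 : IntegrableOn (fun y : ℝ => 2 / (Real.pi * R) * y ^ (-2 : ℝ)) (Ioi h) :=
    (integrableOn_Ioi_rpow_of_lt (by norm_num) hh).const_mul _
  calc ∫ y in Ioi h, v R y ≤ ∫ y in Ioi h, 2 / (Real.pi * R) * y ^ (-2 : ℝ) := by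
        apply setIntegral_mono_on (v_integrable hR).integrableOn i1 measurableSet_Ioi
        intro y hy
        have hy0 : 0 < y := hh.trans hy
        have e : y ^ (-2 : ℝ) = (y ^ 2)⁻¹ := by
          rw [Real.rpow_neg hy0.le]; norm_num
        rw [e, ← div_eq_mul_inv, le_div_iff₀ (by positivity)]
        exact v_mul_sq hR y
    _ = 2 / (Real.pi * R * h) := by
        rw [integral_const_mul, integral_Ioi_rpow_of_lt (by norm_num) hh]
        have : h ^ (-2 + 1 : ℝ) = h⁻¹ := by
          rw [show (-2 + 1 : ℝ) = -1 by norm_num, Real.rpow_neg_one]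
        rw [this]
        field_simp
        norm_num

lemma v_tail {R h : ℝ} (hR : 0 < R) (hh : 0 < h) :
    ∫ y in (Icc (-h) h)ᶜ, v R y ≤ 4 / (Real.pi * R * h) := by
  have hpi := Real.pi_pos
  have e0 : (Icc (-h) h)ᶜ = Iio (-h) ∪ Ioi h := by
    ext y
    simp only [mem_compl_iff, mem_Icc, not_and_or, not_le, mem_union, mem_Iio, mem_Ioi]
  have hi := v_integrable hR
  rw [e0, setIntegral_union ?_ measurableSet_Ioi hi.integrableOn hi.integrableOn,
    ← integral_Iic_eq_integral_Iio]
  · have e1 := integral_comp_neg_Ioi h (v R)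
    rw [← e1]
    simp_rw [v_even]
    have := v_half_tail hR hh
    have e2 : 4 / (Real.pi * R * h) = 2 / (Real.pi * R * h) + 2 / (Real.pi * R * h) := by ring
    rw [e2]
    linarith
  · rw [Set.disjoint_left]
    intro y h1 h2
    simp only [mem_Iio, mem_Ioi] at h1 h2
    linarith

lemma v_odd {R h : ℝ} : ∫ y in (-h)..h, y * v R y = 0 := by
  have h1 := intervalIntegral.integral_comp_neg (a := -h) (b := h) (fun y => y * v R y)
  simp only [neg_neg, v_even] at h1
  have h2 : ∫ x in (-h)..h, -x * v R x = - ∫ x in (-h)..h, x * v R x := by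
    rw [← intervalIntegral.integral_neg]
    congr 1; ext x; ring
  rw [h2] at h1
  linarith

lemma smooth_lower {R h d c S : ℝ} (hR : 0 < R) (hh : 0 < h) (hd : 0 ≤ d)
    (g : ℝ → ℝ) (hg : Measurable g) (hb : ∀ y, |g y| ≤ S)
    (hlow : ∀ y, |y| ≤ h → d / 2 + c * y ≤ g y) :
    d / 2 * (1 - 4 / (Real.pi * R * h)) - S * (4 / (Real.pi * R * h)) ≤ ∫ y, g y * v R y := by
  have hi := v_integrable hR
  have hS : 0 ≤ S := (abs_nonneg _).trans (hb 0)
  have hgi : Integrable (fun y => g y * v R y) := by
    apply hi.bdd_mul (c := S)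
    · exact hg.aestronglyMeasurable
    · exact Eventually.of_forall hb
  rw [← integral_add_compl measurableSet_Icc hgi (s := Icc (-h) h)]
  have ht := v_tail hR hh
  have h1 : (∫ y in Icc (-h) h, v R y) + ∫ y in (Icc (-h) h)ᶜ, v R y = 1 := by
    rw [integral_add_compl measurableSet_Icc hi, v_one hR]
  have hc2 : Continuous (fun y => (d / 2 + c * y) * v R y) := by
    have := v_cont R
    fun_prop
  have h2 : ∫ y in Icc (-h) h, (d / 2 + c * y) * v R y ≤ ∫ y in Icc (-h) h, g y * v R y := by
    apply setIntegral_mono_on hc2.integrableOn_Icc hgi.integrableOn measurableSet_Icc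
    intro y hy
    exact mul_le_mul_of_nonneg_right (hlow y (abs_le.mpr hy)) (v_nonneg hR y)
  have h3 : ∫ y in Icc (-h) h, (d / 2 + c * y) * v R y = d / 2 * ∫ y in Icc (-h) h, v R y := by
    have hle : -h ≤ h := by linarith
    rw [integral_Icc_eq_integral_Ioc, integral_Icc_eq_integral_Ioc,
      ← intervalIntegral.integral_of_le hle, ← intervalIntegral.integral_of_le hle]
    have e : ∀ y, (d / 2 + c * y) * v R y = d / 2 * v R y + c * (y * v R y) := by
      intro y; ring
    simp_rw [e]
    have hv := v_cont R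
    rw [intervalIntegral.integral_add (Continuous.intervalIntegrable (by fun_prop) _ _)
      (Continuous.intervalIntegrable (by fun_prop) _ _), intervalIntegral.integral_const_mul,
      intervalIntegral.integral_const_mul, v_odd, mul_zero, add_zero]
  have h4 : -(S * ∫ y in (Icc (-h) h)ᶜ, v R y) ≤ ∫ y in (Icc (-h) h)ᶜ, g y * v R y := by
    rw [← integral_const_mul, ← integral_neg]
    apply setIntegral_mono_on (hi.const_mul S).neg.integrableOn hgi.integrableOn
      measurableSet_Icc.compl
    intro y _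
    have := (abs_le.mp (hb y)).1
    show -(S * v R y) ≤ g y * v R y
    nlinarith [v_nonneg hR y]
  have h5 : 0 ≤ ∫ y in (Icc (-h) h)ᶜ, v R y := integral_nonneg (fun y => v_nonneg hR y)
  rw [h3] at h2
  have h6 : ∫ y in Icc (-h) h, v R y = 1 - ∫ y in (Icc (-h) h)ᶜ, v R y := by linarith
  rw [h6] at h2
  nlinarith [mul_le_mul_of_nonneg_left ht (by positivity : 0 ≤ d / 2),
    mul_le_mul_of_nonneg_left ht hS]

end Q285MM
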