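import Mathlib
import Pool.Agent.Q282.MM.Stm
import Pool.Agent.Q285.MM.Fejer

/-! # Esseen's smoothing inequality with the normal law (lemma job ESS of project MM, helper285) -/

set_option autoImplicit false

namespace Q285MM

open MeasureTheory ProbabilityTheory Set Filter Topology

/-- smoothed distribution function -/
noncomputable def GG (μ : Measure ℝ) (R x : ℝ) : ℝ := ∫ y, μ.real (Iic (x - y)) * v R y

/-- real part of the twisted characteristic function -/
noncomputable def CC (μ : Measure ℝ) (t s : ℝ) : ℝ := ∫ z, Real.cos (t * (s - z)) ∂μ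

lemma meas_F (μ : Measure ℝ) [IsProbabilityMeasure μ] : Measurable (fun x : ℝ => μ.real (Iic x)) := by
  apply Monotone.measurable
  intro x y h
  exact measureReal_mono (Iic_subset_Iic.mpr h)

lemma fub_int (μ : Measure ℝ) [IsProbabilityMeasure μ] {R : ℝ} (hR : 0 < R) (x : ℝ) :
    Integrable (fun p : ℝ × ℝ => if p.2 ≤ x - p.1 then v R p.1 else 0) (volume.prod μ) := by
  have h1 : Integrable (fun p : ℝ × ℝ => v R p.1) (volume.prod μ) := (v_integrable hR).comp_fst μ
  refine h1.mono' ?_ (Eventually.of_forall fun p => ?_)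
  · apply Measurable.aestronglyMeasurable
    apply Measurable.ite (measurableSet_le measurable_snd (measurable_const.sub measurable_fst))
    · exact (v_cont R).measurable.comp measurable_fst
    · exact measurable_const
  · have h0 := v_nonneg hR p.1
    split_ifs
    · rw [Real.norm_of_nonneg h0]
    · rw [norm_zero]; exact h0

lemma GG_eq (μ : Measure ℝ) [IsProbabilityMeasure μ] {R : ℝ} (hR : 0 < R) (x : ℝ) :
    GG μ R x = ∫ z, (∫ y in Iic (x - z), v R y) ∂μ := by
  have h1 := integral_integral_swap (μ := volume) (ν := μ)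
    (f := fun y z => if z ≤ x - y then v R y else 0) (fub_int μ hR x)
  unfold GG
  have h2 : ∀ y, μ.real (Iic (x - y)) * v R y = ∫ z, (if z ≤ x - y then v R y else 0) ∂μ := by
    intro y
    have e : (fun z => if z ≤ x - y then v R y else 0) = (Iic (x - y)).indicator (fun _ => v R y) := by
      ext z
      simp [indicator, mem_Iic]
    rw [e, integral_indicator measurableSet_Iic, setIntegral_const, smul_eq_mul]
  have h3 : ∀ z, ∫ y in Iic (x - z), v R y = ∫ y, (if z ≤ x - y then v R y else 0) := by
    intro z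
    have e : (fun y => if z ≤ x - y then v R y else 0) = (Iic (x - z)).indicator (v R) := by
      ext y
      simp only [indicator, mem_Iic]
      by_cases h : y ≤ x - z
      · rw [if_pos h, if_pos (by linarith)]
      · rw [if_neg h, if_neg (by intro h'; apply h; linarith)]
    rw [e, integral_indicator measurableSet_Iic]
  simp_rw [h2, h3]
  exact h1

lemma GG_int (μ : Measure ℝ) [IsProbabilityMeasure μ] {R : ℝ} (hR : 0 < R) (x : ℝ) :
    Integrable (fun z => ∫ y in Iic (x - z), v R y) μ := by
  have h1 := (fub_int μ hR x).integral_prod_right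
  have h3 : ∀ z, ∫ y in Iic (x - z), v R y = ∫ y, (if z ≤ x - y then v R y else 0) := by
    intro z
    have e : (fun y => if z ≤ x - y then v R y else 0) = (Iic (x - z)).indicator (v R) := by
      ext y
      simp only [indicator, mem_Iic]
      by_cases h : y ≤ x - z
      · rw [if_pos h, if_pos (by linarith)]
      · rw [if_neg h, if_neg (by intro h'; apply h; linarith)]
    rw [e, integral_indicator measurableSet_Iic]
  simp_rw [h3]
  exact h1

lemma GG_diff (μ : Measure ℝ) [IsProbabilityMeasure μ] {R : ℝ} (hR : 0 < R) (a b : ℝ) :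
    GG μ R b - GG μ R a =
      1 / Real.pi * ∫ t in (0:ℝ)..R, (1 - t / R) * ∫ s in a..b, CC μ t s := by
  rw [GG_eq μ hR, GG_eq μ hR, ← integral_sub (GG_int μ hR b) (GG_int μ hR a)]
  have h1 : ∀ z, (∫ y in Iic (b - z), v R y) - ∫ y in Iic (a - z), v R y =
      1 / Real.pi * ∫ t in (0:ℝ)..R, (1 - t / R) * ∫ s in a..b, Real.cos (t * (s - z)) := by
    intro z
    have hi := v_integrable hR
    rw [intervalIntegral.integral_Iic_sub_Iic hi.integrableOn hi.integrableOn,
      ← intervalIntegral.integral_comp_sub_right (fun y => v R y) z]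
    simp_rw [v_eq_int hR]
    rw [intervalIntegral.integral_const_mul, intervalIntegral_intervalIntegral_swap]
    · simp_rw [intervalIntegral.integral_const_mul]
    · have hc : Continuous (Function.uncurry (fun s t : ℝ => (1 - t / R) * Real.cos (t * (s - z)))) := by
        unfold Function.uncurry
        fun_prop
      exact (hc.continuousOn.integrableOn_compact (K := uIcc a b ×ˢ uIcc 0 R)
        (isCompact_uIcc.prod isCompact_uIcc)).mono_set (prod_mono uIoc_subset_uIcc uIoc_subset_uIcc)
  simp_rw [h1]
  rw [integral_const_mul]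
  congr 1
  -- swap the two outer integrals
  have hc1 : Continuous (fun p : ℝ × ℝ => ∫ s in a..b, Real.cos (p.1 * (s - p.2))) := by
    apply intervalIntegral.continuous_parametric_intervalIntegral_of_continuous'
    unfold Function.uncurry
    fun_prop
  have hb1 : ∀ t z : ℝ, |∫ s in a..b, Real.cos (t * (s - z))| ≤ |b - a| := by
    intro t z
    have := intervalIntegral.norm_integral_le_of_norm_le_const (a := a) (b := b) (C := 1)
      (f := fun s => Real.cos (t * (s - z))) (fun s _ => by
        rw [Real.norm_eq_abs]; exact Real.abs_cos_le_one _)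
    rw [one_mul, Real.norm_eq_abs] at this
    exact this
  rw [← intervalIntegral_integral_swap (μ := μ)
    (f := fun t z => (1 - t / R) * ∫ s in a..b, Real.cos (t * (s - z)))]
  · apply intervalIntegral.integral_congr
    intro t _
    simp only
    rw [integral_const_mul]
    congr 1
    unfold CC
    rw [← intervalIntegral_integral_swap (μ := μ)]
    · have hc2 : Continuous (Function.uncurry (fun s z : ℝ => Real.cos (t * (s - z)))) := by
        unfold Function.uncurry
        fun_prop
      have : IsFiniteMeasure ((volume : Measure ℝ).restrict (uIoc a b)) := by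
        unfold uIoc; infer_instance
      apply Integrable.of_bound hc2.aestronglyMeasurable 1
      exact Eventually.of_forall fun p => by
        rw [Real.norm_eq_abs]; exact Real.abs_cos_le_one _
  · have hc3 : Continuous (Function.uncurry
        (fun t z : ℝ => (1 - t / R) * ∫ s in a..b, Real.cos (t * (s - z)))) := by
      unfold Function.uncurry
      fun_prop
    have : IsFiniteMeasure ((volume : Measure ℝ).restrict (uIoc 0 R)) := by
      unfold uIoc; infer_instance
    apply Integrable.of_bound hc3.aestronglyMeasurable |b - a|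
    have h0 : ∀ᵐ p : ℝ × ℝ ∂((volume.restrict (uIoc 0 R)).prod μ), p.1 ∈ uIoc 0 R := by
      have : ∀ᵐ t : ℝ ∂(volume.restrict (uIoc 0 R)), t ∈ uIoc 0 R :=
        ae_restrict_mem measurableSet_uIoc
      exact Measure.quasiMeasurePreserving_fst.ae this
    filter_upwards [h0] with p hp
    rw [uIoc_of_le hR.le] at hp
    unfold Function.uncurry
    simp only
    rw [norm_mul, Real.norm_eq_abs, Real.norm_eq_abs]
    have h1 : |1 - p.1 / R| ≤ 1 := by
      have h2 : 0 ≤ p.1 / R := div_nonneg hp.1.le hR.le
      have h3 : p.1 / R ≤ 1 := (div_le_one hR).mpr hp.2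
      rw [abs_of_nonneg (by linarith)]
      linarith
    calc |1 - p.1 / R| * |∫ s in a..b, Real.cos (p.1 * (s - p.2))| ≤ 1 * |b - a| := by
          exact mul_le_mul h1 (hb1 _ _) (abs_nonneg _) zero_le_one
      _ = |b - a| := one_mul _

lemma CC_eq (μ : Measure ℝ) [IsProbabilityMeasure μ] (t s : ℝ) :
    CC μ t s = (charFun μ t).re * Real.cos (t * s) + (charFun μ t).im * Real.sin (t * s) := by
  have hi : Integrable (fun z : ℝ => Complex.exp (t * z * Complex.I)) μ := by
    apply Integrable.of_bound (C := 1)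
    · apply Continuous.aestronglyMeasurable; fun_prop
    · refine Eventually.of_forall fun z => ?_
      have : (t : ℂ) * z * Complex.I = ((t * z : ℝ) : ℂ) * Complex.I := by push_cast; ring
      rw [this, Complex.norm_exp_ofReal_mul_I]
  have hre : (charFun μ t).re = ∫ z, Real.cos (t * z) ∂μ := by
    rw [charFun_apply_real]
    have h1 := integral_re hi
    simp only [RCLike.re_to_complex] at h1
    rw [← h1]
    congr 1
    ext z
    have : (t : ℂ) * z * Complex.I = ((t * z : ℝ) : ℂ) * Complex.I := by push_cast; ring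
    rw [this, Complex.exp_ofReal_mul_I_re]
  have him : (charFun μ t).im = ∫ z, Real.sin (t * z) ∂μ := by
    rw [charFun_apply_real]
    have h1 := integral_im hi
    simp only [RCLike.im_to_complex] at h1
    rw [← h1]
    congr 1
    ext z
    have : (t : ℂ) * z * Complex.I = ((t * z : ℝ) : ℂ) * Complex.I := by push_cast; ring
    rw [this, Complex.exp_ofReal_mul_I_im]
  rw [hre, him, ← integral_mul_const, ← integral_mul_const, ← integral_add]
  · unfold CC
    congr 1
    ext z
    rw [mul_sub, Real.cos_sub]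
    ring
  · apply Integrable.mul_const
    apply Integrable.of_bound (C := 1)
    · apply Continuous.aestronglyMeasurable; fun_prop
    · exact Eventually.of_forall fun z => by rw [Real.norm_eq_abs]; exact Real.abs_cos_le_one _
  · apply Integrable.mul_const
    apply Integrable.of_bound (C := 1)
    · apply Continuous.aestronglyMeasurable; fun_prop
    · exact Eventually.of_forall fun z => by rw [Real.norm_eq_abs]; exact Real.abs_sin_le_one _

lemma CC_cont (μ : Measure ℝ) [IsProbabilityMeasure μ] (t : ℝ) : Continuous (fun s => CC μ t s) := by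
  simp_rw [CC_eq]
  fun_prop

/-- the difference of the two characteristic functions -/
noncomputable def ww (μ : Measure ℝ) (t : ℝ) : ℂ := charFun μ t - charFun (gaussianReal 0 1) t

/-- the integrand of the inversion integral -/
noncomputable def FF (μ : Measure ℝ) (R t : ℝ) : ℂ :=
  ((1 / Real.pi * ((1 - t / R) / t) : ℝ) : ℂ) * (starRingEnd ℂ) (ww μ t)

/-- the inversion integral -/
noncomputable def HH (μ : Measure ℝ) (R x : ℝ) : ℂ :=
  ∫ t in Ioc (0:ℝ) R, Complex.exp (((t * x : ℝ) : ℂ) * Complex.I) * FF μ R t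

lemma ww_cont (μ : Measure ℝ) [IsProbabilityMeasure μ] : Continuous (ww μ) := by
  unfold ww
  exact continuous_charFun.sub continuous_charFun

lemma FF_bound (μ : Measure ℝ) [IsProbabilityMeasure μ] {R : ℝ} (hR : 0 < R) {b : ℝ → ℝ}
    (hb : ∀ t, 0 < t → t ≤ R → ‖ww μ t‖ ≤ t * b t) (t : ℝ) (ht : t ∈ Ioc 0 R) :
    ‖FF μ R t‖ ≤ 1 / Real.pi * b t := by
  have hpi := Real.pi_pos
  unfold FF
  rw [norm_mul, RCLike.norm_conj, Complex.norm_real, Real.norm_eq_abs]
  have h2 : 0 ≤ t / R := div_nonneg ht.1.le hR.le
  have h3 : t / R ≤ 1 := (div_le_one hR).mpr ht.2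
  have h4 : 0 ≤ (1 - t / R) / t := div_nonneg (by linarith) ht.1.le
  rw [abs_of_nonneg (by positivity)]
  have h5 : (1 - t / R) / t ≤ 1 / t := by
    apply div_le_div_of_nonneg_right _ ht.1.le
    linarith
  calc 1 / Real.pi * ((1 - t / R) / t) * ‖ww μ t‖ ≤ 1 / Real.pi * (1 / t) * (t * b t) := by
        refine mul_le_mul (mul_le_mul_of_nonneg_left h5 (by positivity)) (hb t ht.1 ht.2)
          (norm_nonneg _) ?_
        have := ht.1
        positivity
    _ = 1 / Real.pi * b t := by
        have := ht.1.ne'
        field_simp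

lemma FF_int (μ : Measure ℝ) [IsProbabilityMeasure μ] {R : ℝ} (hR : 0 < R) {b : ℝ → ℝ}
    (hbc : Continuous b) (hb : ∀ t, 0 < t → t ≤ R → ‖ww μ t‖ ≤ t * b t) :
    IntegrableOn (FF μ R) (Ioc 0 R) := by
  have h1 : IntegrableOn (fun t => 1 / Real.pi * b t) (Ioc 0 R) :=
    ((continuous_const.mul hbc).integrableOn_Icc (a := 0) (b := R)).mono_set Ioc_subset_Icc_self
  refine Integrable.mono' h1 ?_ ?_
  · apply Measurable.aestronglyMeasurable
    unfold FF
    have := (ww_cont μ).measurable
    apply Measurable.mul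
    · apply Complex.measurable_ofReal.comp
      fun_prop
    · exact (Complex.continuous_conj.measurable).comp this
  · rw [ae_restrict_iff' measurableSet_Ioc]
    exact Eventually.of_forall fun t ht => FF_bound μ hR hb t ht

lemma HHi_int (μ : Measure ℝ) [IsProbabilityMeasure μ] {R : ℝ} (hR : 0 < R) {b : ℝ → ℝ}
    (hbc : Continuous b) (hb : ∀ t, 0 < t → t ≤ R → ‖ww μ t‖ ≤ t * b t) (x : ℝ) :
    IntegrableOn (fun t : ℝ => Complex.exp (((t * x : ℝ) : ℂ) * Complex.I) * FF μ R t) (Ioc 0 R) := by
  apply (FF_int μ hR hbc hb).bdd_mul (c := 1)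
  · apply Continuous.aestronglyMeasurable; fun_prop
  · refine Filter.Eventually.of_forall fun v => ?_
    rw [Complex.norm_exp_ofReal_mul_I]

lemma HH_bound (μ : Measure ℝ) [IsProbabilityMeasure μ] {R : ℝ} (hR : 0 < R) {b : ℝ → ℝ}
    (hbc : Continuous b) (hb : ∀ t, 0 < t → t ≤ R → ‖ww μ t‖ ≤ t * b t) (x : ℝ) :
    ‖HH μ R x‖ ≤ 1 / Real.pi * ∫ t in (0:ℝ)..R, b t := by
  have h1 : IntegrableOn (fun t => 1 / Real.pi * b t) (Ioc 0 R) :=
    ((continuous_const.mul hbc).integrableOn_Icc (a := 0) (b := R)).mono_set Ioc_subset_Icc_self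
  rw [← intervalIntegral.integral_const_mul, intervalIntegral.integral_of_le hR.le]
  unfold HH
  refine norm_integral_le_of_norm_le h1 ?_
  rw [ae_restrict_iff' measurableSet_Ioc]
  refine Eventually.of_forall fun t ht => ?_
  rw [norm_mul, Complex.norm_exp_ofReal_mul_I, one_mul]
  exact FF_bound μ hR hb t ht

lemma main_id (μ : Measure ℝ) [IsProbabilityMeasure μ] {R : ℝ} (hR : 0 < R) {b : ℝ → ℝ}
    (hbc : Continuous b) (hb : ∀ t, 0 < t → t ≤ R → ‖ww μ t‖ ≤ t * b t) (a c : ℝ) :
    (GG μ R c - GG (gaussianReal 0 1) R c) - (GG μ R a - GG (gaussianReal 0 1) R a) =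
      (HH μ R c).im - (HH μ R a).im := by
  have e1 : (GG μ R c - GG (gaussianReal 0 1) R c) - (GG μ R a - GG (gaussianReal 0 1) R a) =
      (GG μ R c - GG μ R a) - (GG (gaussianReal 0 1) R c - GG (gaussianReal 0 1) R a) := by ring
  rw [e1, GG_diff μ hR, GG_diff (gaussianReal 0 1) hR, ← mul_sub]
  have hcc : ∀ (ν : Measure ℝ) [IsProbabilityMeasure ν],
      Continuous (fun t : ℝ => (1 - t / R) * ∫ s in a..c, CC ν t s) := by
    intro ν _
    have h0 : Continuous (fun p : ℝ × ℝ => CC ν p.1 p.2) := by
      simp_rw [CC_eq]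
      have h1 : Continuous (charFun ν) := continuous_charFun
      have h2 : Continuous (fun t => (charFun ν t).re) := Complex.continuous_re.comp h1
      have h3 : Continuous (fun t => (charFun ν t).im) := Complex.continuous_im.comp h1
      apply Continuous.add
      · exact (h2.comp continuous_fst).mul (by fun_prop)
      · exact (h3.comp continuous_fst).mul (by fun_prop)
    apply Continuous.mul (by fun_prop)
    apply intervalIntegral.continuous_parametric_intervalIntegral_of_continuous'
    exact h0
  rw [← intervalIntegral.integral_sub ((hcc μ).intervalIntegrable _ _)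
    ((hcc (gaussianReal 0 1)).intervalIntegrable _ _), ← intervalIntegral.integral_const_mul,
    intervalIntegral.integral_of_le hR.le]
  rw [← Complex.sub_im]
  unfold HH
  rw [← integral_sub (HHi_int μ hR hbc hb c) (HHi_int μ hR hbc hb a)]
  have h2 := integral_im (((HHi_int μ hR hbc hb c).sub (HHi_int μ hR hbc hb a)))
  simp only [RCLike.im_to_complex, Pi.sub_apply] at h2
  rw [← h2]
  apply setIntegral_congr_fun measurableSet_Ioc
  intro t ht
  simp only
  have ht0 := ht.1.ne'
  have hpi := Real.pi_ne_zero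
  -- inner integrals
  have h3 : (∫ s in a..c, CC μ t s) - ∫ s in a..c, CC (gaussianReal 0 1) t s =
      ∫ s in a..c, ((ww μ t).re * Real.cos (t * s) + (ww μ t).im * Real.sin (t * s)) := by
    rw [← intervalIntegral.integral_sub]
    · congr 1
      ext s
      rw [CC_eq, CC_eq]
      unfold ww
      rw [Complex.sub_re, Complex.sub_im]
      ring
    · exact (CC_cont μ t).intervalIntegrable _ _
    · exact (CC_cont (gaussianReal 0 1) t).intervalIntegrable _ _
  have h4 : ∫ s in a..c, ((ww μ t).re * Real.cos (t * s) + (ww μ t).im * Real.sin (t * s)) =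
      ((ww μ t).re * Real.sin (t * c) - (ww μ t).im * Real.cos (t * c)) / t -
      ((ww μ t).re * Real.sin (t * a) - (ww μ t).im * Real.cos (t * a)) / t := by
    have h5 : ∀ s ∈ Set.uIcc a c, HasDerivAt
        (fun s => ((ww μ t).re * Real.sin (t * s) - (ww μ t).im * Real.cos (t * s)) / t)
        ((ww μ t).re * Real.cos (t * s) + (ww μ t).im * Real.sin (t * s)) s := by
      intro s _
      have e1 : HasDerivAt (fun s : ℝ => t * s) t s := by
        simpa using (hasDerivAt_id s).const_mul t
      have e2 : HasDerivAt (fun s : ℝ => Real.sin (t * s)) (Real.cos (t * s) * t) s := e1.sin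
      have e3 : HasDerivAt (fun s : ℝ => Real.cos (t * s)) (-Real.sin (t * s) * t) s := e1.cos
      have e5 := ((e2.const_mul (ww μ t).re).sub (e3.const_mul (ww μ t).im)).div_const t
      refine e5.congr_deriv ?_
      field_simp
      ring
    rw [intervalIntegral.integral_eq_sub_of_hasDerivAt h5
      (Continuous.intervalIntegrable (by fun_prop) _ _)]
  rw [← mul_sub, h3, h4]
  unfold FF
  simp only [Complex.sub_im, Complex.mul_im, Complex.mul_re, Complex.exp_ofReal_mul_I_re,
    Complex.exp_ofReal_mul_I_im, Complex.ofReal_re, Complex.ofReal_im, Complex.conj_re,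
    Complex.conj_im, zero_mul, sub_zero, add_zero]
  field_simp
  ring

lemma GG_tendsto (μ : Measure ℝ) [IsProbabilityMeasure μ] {R : ℝ} (hR : 0 < R) :
    Tendsto (GG μ R) atBot (𝓝 0) := by
  have h0 : (0:ℝ) = ∫ y : ℝ, (0:ℝ) := by simp
  rw [h0]
  unfold GG
  apply tendsto_integral_filter_of_dominated_convergence (v R)
  · refine Eventually.of_forall fun x => ?_
    apply Measurable.aestronglyMeasurable
    exact ((meas_F μ).comp (measurable_const.sub measurable_id)).mul (v_cont R).measurable
  · refine Eventually.of_forall fun x => Eventually.of_forall fun y => ?_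
    have h1 := v_nonneg hR y
    rw [norm_mul, Real.norm_of_nonneg h1, Real.norm_of_nonneg measureReal_nonneg]
    exact mul_le_of_le_one_left h1 measureReal_le_one
  · exact v_integrable hR
  · refine Eventually.of_forall fun y => ?_
    have h1 : Tendsto (fun x : ℝ => μ.real (Iic (x - y))) atBot (𝓝 0) := by
      have h2 := tendsto_cdf_atBot μ
      have h3 : Tendsto (fun x : ℝ => x - y) atBot atBot := tendsto_atBot_add_const_right _ _ tendsto_id
      have h4 := h2.comp h3
      refine h4.congr fun x => ?_
      simp only [Function.comp, cdf_eq_real]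
    simpa using h1.mul_const (v R y)

lemma HH_tendsto (μ : Measure ℝ) [IsProbabilityMeasure μ] {R : ℝ} :
    Tendsto (HH μ R) atBot (𝓝 0) := by
  have h1 := Real.tendsto_integral_exp_smul_cocompact (indicator (Ioc 0 R) (FF μ R))
  have h2 : Tendsto (fun x : ℝ => x * (-(2 * Real.pi)⁻¹)) atBot (cocompact ℝ) := by
    have hpi := Real.pi_pos
    have h3 : Tendsto (fun x : ℝ => x * (-(2 * Real.pi)⁻¹)) atBot atTop :=
      tendsto_id.atBot_mul_const_of_neg (by simp only [Left.neg_neg_iff]; positivity)
    exact h3.mono_right (by rw [cocompact_eq_atBot_atTop]; exact le_sup_right)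
  have h4 := h1.comp h2
  refine h4.congr fun x => ?_
  simp only [Function.comp]
  unfold HH
  rw [← integral_indicator measurableSet_Ioc]
  congr 1
  ext t
  by_cases ht : t ∈ Ioc 0 R
  · rw [indicator_of_mem ht, indicator_of_mem ht]
    rw [Circle.smul_def, Real.fourierChar_apply, smul_eq_mul]
    congr 2
    have hpi := Real.pi_ne_zero
    push_cast
    field_simp
  · rw [indicator_of_notMem ht, indicator_of_notMem ht, smul_zero]

lemma GG_bound (μ : Measure ℝ) [IsProbabilityMeasure μ] {R : ℝ} (hR : 0 < R) {b : ℝ → ℝ}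
    (hbc : Continuous b) (hb : ∀ t, 0 < t → t ≤ R → ‖ww μ t‖ ≤ t * b t) (x : ℝ) :
    |GG μ R x - GG (gaussianReal 0 1) R x| ≤ 1 / Real.pi * ∫ t in (0:ℝ)..R, b t := by
  have h1 : ∀ a, GG μ R x - GG (gaussianReal 0 1) R x - (HH μ R x).im =
      GG μ R a - GG (gaussianReal 0 1) R a - (HH μ R a).im := by
    intro a
    have := main_id μ hR hbc hb a x
    linarith
  have h2 : Tendsto (fun a => GG μ R a - GG (gaussianReal 0 1) R a - (HH μ R a).im) atBot (𝓝 0) := by
    have h3 := ((GG_tendsto μ hR).sub (GG_tendsto (gaussianReal 0 1) hR)).sub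
      ((Complex.continuous_im.tendsto 0).comp (HH_tendsto μ (R := R)))
    simpa using h3
  have h3 : GG μ R x - GG (gaussianReal 0 1) R x - (HH μ R x).im = 0 := by
    apply tendsto_nhds_unique _ h2
    refine Tendsto.congr (fun a => h1 a) tendsto_const_nhds
  have h4 : GG μ R x - GG (gaussianReal 0 1) R x = (HH μ R x).im := by linarith
  rw [h4]
  exact (Complex.abs_im_le_norm _).trans (HH_bound μ hR hbc hb x)

/-- the normal distribution function is Lipschitz with constant `1/√(2π)` -/
lemma Phi_lip {a c : ℝ} (h : a ≤ c) :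
    Q282MM.Phi c - Q282MM.Phi a ≤ (√(2 * Real.pi))⁻¹ * (c - a) := by
  unfold Q282MM.Phi
  have h1 : (gaussianReal 0 1).real (Iic c) =
      (gaussianReal 0 1).real (Iic a) + (gaussianReal 0 1).real (Ioc a c) := by
    rw [← Iic_union_Ioc_eq_Iic h]
    exact measureReal_union (Iic_disjoint_Ioc le_rfl) measurableSet_Ioc
  have h2 : (gaussianReal 0 1).real (Ioc a c) ≤ (√(2 * Real.pi))⁻¹ * (c - a) := by
    rw [measureReal_def, gaussianReal_apply_eq_integral 0 (by norm_num),
      ENNReal.toReal_ofReal (integral_nonneg (fun x => gaussianPDFReal_nonneg _ _ _))]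
    have h3 : ∀ x : ℝ, gaussianPDFReal 0 1 x ≤ (√(2 * Real.pi))⁻¹ := by
      intro x
      unfold gaussianPDFReal
      have h4 : Real.exp (-(x - 0) ^ 2 / (2 * ((1 : NNReal) : ℝ))) ≤ 1 := by
        apply Real.exp_le_one_iff.mpr
        rw [NNReal.coe_one]
        have := sq_nonneg (x - 0)
        linarith
      have h5 : (√(2 * Real.pi * ((1 : NNReal) : ℝ)))⁻¹ = (√(2 * Real.pi))⁻¹ := by
        rw [NNReal.coe_one, mul_one]
      rw [h5]
      exact mul_le_of_le_one_right (by positivity) h4
    calc ∫ x in Ioc a c, gaussianPDFReal 0 1 x ≤ ∫ x in Ioc a c, (√(2 * Real.pi))⁻¹ := by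
          apply setIntegral_mono_on (integrable_gaussianPDFReal 0 1).integrableOn
            ((continuous_const.integrableOn_Icc (a := a) (b := c)).mono_set Ioc_subset_Icc_self)
            measurableSet_Ioc
          intro x _
          exact h3 x
      _ = (√(2 * Real.pi))⁻¹ * (c - a) := by
          rw [setIntegral_const, smul_eq_mul, Real.volume_real_Ioc_of_le h, mul_comm]
  linarith

lemma key_step (μ : Measure ℝ) [IsProbabilityMeasure μ] {R B S : ℝ} (hR : 0 < R)
    (hG : ∀ x, |GG μ R x - GG (gaussianReal 0 1) R x| ≤ B)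
    (hS : ∀ x, |μ.real (Iic x) - Q282MM.Phi x| ≤ S) (x0 d : ℝ) (hd : 0 < d)
    (hx0 : |μ.real (Iic x0) - Q282MM.Phi x0| = d) :
    d / 2 - 4 * (√(2 * Real.pi))⁻¹ / (Real.pi * R) -
      8 * (√(2 * Real.pi))⁻¹ * S / (Real.pi * R * d) ≤ B := by
  have hpi := Real.pi_pos
  set m : ℝ := (√(2 * Real.pi))⁻¹ with hm
  have hm0 : 0 < m := by positivity
  set h : ℝ := d / (2 * m) with hh
  have hh0 : 0 < h := by positivity
  have hmh : m * h = d / 2 := by rw [hh]; field_simp
  have hmF := meas_F μ
  have hmP : Measurable Q282MM.Phi := meas_F (gaussianReal 0 1)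
  have hval : d / 2 * (1 - 4 / (Real.pi * R * h)) - S * (4 / (Real.pi * R * h)) =
      d / 2 - 4 * m / (Real.pi * R) - 8 * m * S / (Real.pi * R * d) := by
    rw [hh]
    field_simp
    ring
  have hint : ∀ x, ∫ y, (μ.real (Iic (x - y)) - Q282MM.Phi (x - y)) * v R y =
      GG μ R x - GG (gaussianReal 0 1) R x := by
    intro x
    unfold GG
    rw [← integral_sub]
    · congr 1
      ext y
      unfold Q282MM.Phi
      ring
    · apply (v_integrable hR).bdd_mul (c := 1)
      · exact (hmF.comp (measurable_const.sub measurable_id)).aestronglyMeasurable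
      · refine Eventually.of_forall fun y => ?_
        rw [Real.norm_of_nonneg measureReal_nonneg]
        exact measureReal_le_one
    · apply (v_integrable hR).bdd_mul (c := 1)
      · exact (hmP.comp (measurable_const.sub measurable_id)).aestronglyMeasurable
      · refine Eventually.of_forall fun y => ?_
        rw [Real.norm_of_nonneg measureReal_nonneg]
        exact measureReal_le_one
  have hmono : ∀ a c : ℝ, a ≤ c → μ.real (Iic a) ≤ μ.real (Iic c) := fun a c hac =>
    measureReal_mono (Iic_subset_Iic.mpr hac)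
  rcases le_or_gt 0 (μ.real (Iic x0) - Q282MM.Phi x0) with hs | hs
  · rw [abs_of_nonneg hs] at hx0
    have h1 := smooth_lower (R := R) (h := h) (d := d) (c := m) (S := S) hR hh0 hd.le
      (fun y => μ.real (Iic (x0 + h - y)) - Q282MM.Phi (x0 + h - y))
      ((hmF.comp (measurable_const.sub measurable_id)).sub
        (hmP.comp (measurable_const.sub measurable_id)))
      (fun y => hS _) (fun y hy => by
        have hy' := abs_le.mp hy
        have e1 := hmono x0 (x0 + h - y) (by linarith)
        have e2 := Phi_lip (a := x0) (c := x0 + h - y) (by linarith)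
        rw [← hm] at e2
        have e3 : m * (x0 + h - y - x0) = d / 2 - m * y := by
          rw [← hmh]; ring
        linarith)
    rw [hval, hint] at h1
    exact h1.trans ((le_abs_self _).trans (hG _))
  · rw [abs_of_neg hs] at hx0
    have h1 := smooth_lower (R := R) (h := h) (d := d) (c := -m) (S := S) hR hh0 hd.le
      (fun y => -(μ.real (Iic (x0 - h - y)) - Q282MM.Phi (x0 - h - y)))
      (((hmF.comp (measurable_const.sub measurable_id)).sub
        (hmP.comp (measurable_const.sub measurable_id))).neg)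
      (fun y => by rw [abs_neg]; exact hS _) (fun y hy => by
        have hy' := abs_le.mp hy
        have e1 := hmono (x0 - h - y) x0 (by linarith)
        have e2 := Phi_lip (a := x0 - h - y) (c := x0) (by linarith)
        rw [← hm] at e2
        have e3 : m * (x0 - (x0 - h - y)) = d / 2 + m * y := by
          rw [← hmh]; ring
        linarith)
    have h2 : ∫ y, -(μ.real (Iic (x0 - h - y)) - Q282MM.Phi (x0 - h - y)) * v R y =
        -∫ y, (μ.real (Iic (x0 - h - y)) - Q282MM.Phi (x0 - h - y)) * v R y := by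
      rw [← integral_neg]
      congr 1; ext y; ring
    rw [hval, h2, hint] at h1
    exact h1.trans ((neg_le_abs _).trans (hG _))

/-- Esseen's smoothing inequality with the normal law. -/
theorem ess : Q282MM.S_Ess := by
  intro μ _ R b hR hbc hb x
  have hpi := Real.pi_pos
  set m : ℝ := (√(2 * Real.pi))⁻¹ with hm
  have hm0 : 0 < m := by positivity
  have hb' : ∀ t, 0 < t → t ≤ R → ‖ww μ t‖ ≤ t * b t := by
    intro t h1 h2
    have h3 := hb t h1 h2
    unfold ww
    rw [charFun_gaussianReal]
    have e : Complex.exp ((t : ℂ) * ((0 : ℝ) : ℂ) * Complex.I - ((1 : NNReal) : ℂ) * (t : ℂ) ^ 2 / 2) =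
        Complex.exp (-((t : ℂ) ^ 2 / 2)) := by
      congr 1
      simp
    rw [e]
    exact h3
  set I : ℝ := ∫ t in (0:ℝ)..R, b t with hI
  have hI0 : 0 ≤ 1 / Real.pi * I := (norm_nonneg _).trans (HH_bound μ hR hbc hb' 0)
  have hG := GG_bound μ hR hbc hb'
  rw [← hI] at hG
  have hD1 : ∀ y, |μ.real (Iic y) - Q282MM.Phi y| ≤ 1 := by
    intro y
    unfold Q282MM.Phi
    have h1 : 0 ≤ μ.real (Iic y) := measureReal_nonneg
    have h2 : μ.real (Iic y) ≤ 1 := measureReal_le_one
    have h3 : 0 ≤ (gaussianReal 0 1).real (Iic y) := measureReal_nonneg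
    have h4 : (gaussianReal 0 1).real (Iic y) ≤ 1 := measureReal_le_one
    rw [abs_le]
    constructor <;> linarith
  have hbdd : BddAbove (range (fun y => |μ.real (Iic y) - Q282MM.Phi y|)) :=
    ⟨1, by rintro _ ⟨y, rfl⟩; exact hD1 y⟩
  set S : ℝ := ⨆ y, |μ.real (Iic y) - Q282MM.Phi y| with hS
  have hSx : ∀ y, |μ.real (Iic y) - Q282MM.Phi y| ≤ S := fun y => le_ciSup hbdd y
  have hT : 2 / Real.pi * I + 24 / (Real.pi * √(2 * Real.pi) * R) =
      2 * (1 / Real.pi * I) + 24 * m / (Real.pi * R) := by
    rw [hm]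
    field_simp
  rw [hT]
  refine (hSx x).trans ?_
  have hS0 : 0 ≤ S := (abs_nonneg _).trans (hSx 0)
  rcases hS0.eq_or_lt with h0 | hSpos
  · rw [← h0]
    positivity
  have hκ : ∀ θ : ℝ, θ ∈ Ioo (0:ℝ) 1 → θ * S / 2 - 8 * m / (Real.pi * R * θ) ≤
      1 / Real.pi * I + 4 * m / (Real.pi * R) := by
    intro θ hθ
    have h1 : θ * S < S := by nlinarith [hθ.2]
    obtain ⟨x0, hx0⟩ := exists_lt_of_lt_ciSup h1
    have hθS : 0 < θ * S := mul_pos hθ.1 hSpos
    have hd0 : 0 < |μ.real (Iic x0) - Q282MM.Phi x0| := hθS.trans hx0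
    have h2 := key_step μ hR hG hSx x0 _ hd0 rfl
    rw [← hm] at h2
    set d := |μ.real (Iic x0) - Q282MM.Phi x0|
    have h3 : 8 * m * S / (Real.pi * R * d) ≤ 8 * m / (Real.pi * R * θ) := by
      rw [div_le_div_iff₀ (by positivity) (by have := hθ.1; positivity)]
      have : θ * S ≤ d := hx0.le
      have h5 : 0 ≤ 8 * m * (Real.pi * R) := by positivity
      nlinarith [mul_le_mul_of_nonneg_left this h5]
    linarith
  have hlim : Tendsto (fun θ : ℝ => θ * S / 2 - 8 * m / (Real.pi * R * θ)) (𝓝[<] 1)
      (𝓝 (1 * S / 2 - 8 * m / (Real.pi * R * 1))) := by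
    apply tendsto_nhdsWithin_of_tendsto_nhds
    apply Tendsto.sub
    · exact (tendsto_id.mul_const S).div_const 2
    · apply Tendsto.div tendsto_const_nhds (tendsto_id.const_mul _)
      positivity
  have h6 := le_of_tendsto hlim (by
    filter_upwards [Ioo_mem_nhdsLT (show (0:ℝ) < 1 by norm_num)] with θ hθ
    exact hκ θ hθ)
  rw [mul_one, one_mul] at h6
  have h7 : 24 * m / (Real.pi * R) = 2 * (4 * m / (Real.pi * R)) + 2 * (8 * m / (Real.pi * R)) := by
    ring
  rw [h7]
  linarith

end Q285MM
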