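import Pool.Agent.Q35.MM.Stm

/-! Project MM of helper35, job LW (helper285). -/

set_option autoImplicit false

namespace Pool.Agent.Q285.MM

open Finset Function Pool.Agent.Q35.MM

/-- job LW -/
theorem lw : S_LW := by
  intro K _ _ m V
  classical
  have : Module.Finite ℚ V := Module.Finite.trans K V
  set D := Module.finrank ℚ V with hDdef
  have hD : D = dg K * Module.finrank K V := (Module.finrank_mul_finrank ℚ K V).symm
  let e : Module.Basis (Fin D) ℚ V := Module.finBasis ℚ V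
  obtain ⟨N, hN0, hN⟩ := exists_integral_multiples ℤ ℚ
    (univ.image fun p : Fin D × Fin m => (e p.1 : Fin m → K) p.2)
  have hint : ∀ j a, IsIntegral ℤ (N • (e j : Fin m → K) a) := fun j a =>
    hN _ (mem_image.2 ⟨(j, a), mem_univ _, rfl⟩)
  -- the bound for the basis
  set X : ℝ := ∑ j, ∑ a, ∑ φ : K →+* ℂ, ‖φ (N • (e j : Fin m → K) a)‖ with hX
  have hXb : ∀ j a (φ : K →+* ℂ), ‖φ (N • (e j : Fin m → K) a)‖ ≤ X := by
    intro j a φ
    rw [hX]
    refine le_trans ?_ (single_le_sum (f := fun j => ∑ a, ∑ φ : K →+* ℂ, ‖φ (N • (e j : Fin m → K) a)‖)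
      (fun _ _ => sum_nonneg fun _ _ => sum_nonneg fun _ _ => norm_nonneg _) (mem_univ j))
    refine le_trans ?_ (single_le_sum (f := fun a => ∑ φ : K →+* ℂ, ‖φ (N • (e j : Fin m → K) a)‖)
      (fun _ _ => sum_nonneg fun _ _ => norm_nonneg _) (mem_univ a))
    exact single_le_sum (f := fun φ : K →+* ℂ => ‖φ (N • (e j : Fin m → K) a)‖)
      (fun _ _ => norm_nonneg _) (mem_univ φ)
  set M : ℕ := ⌈X⌉₊ with hM
  have hXM : X ≤ M := Nat.le_ceil X
  set M' : ℕ := D * M + 1 with hM'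
  have hM'0 : 0 < M' := by omega
  have hM'r : (0 : ℝ) < M' := by exact_mod_cast hM'0
  refine ⟨(1 / (M' : ℝ)) ^ D, by positivity, 0, fun B _ hdec => ?_⟩
  rw [← hD, ← mul_pow]
  set Q : ℕ := B / M' with hQ
  have hQB : Q * M' ≤ B := Nat.div_mul_le_self B M'
  let f : (Fin D → Fin (Q + 1)) → (Fin m → K) := fun c =>
    ((∑ j, ((((c j : ℕ) : ℚ)) * (N : ℚ)) • e j : V) : Fin m → K)
  have hf : Injective f := by
    intro c c' h
    have h1 : (∑ j, ((((c j : ℕ) : ℚ)) * (N : ℚ)) • e j : V) = ∑ j, ((((c' j : ℕ) : ℚ)) * (N : ℚ)) • e j :=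
      Subtype.ext h
    have h2 : (e.equivFun.symm fun j => (((c j : ℕ) : ℚ)) * (N : ℚ)) =
        e.equivFun.symm fun j => (((c' j : ℕ) : ℚ)) * (N : ℚ) := by
      rw [Module.Basis.equivFun_symm_apply, Module.Basis.equivFun_symm_apply]
      exact h1
    have h3 := e.equivFun.symm.injective h2
    funext j
    have h4 := congrFun h3 j

    have hNq : (N : ℚ) ≠ 0 := by exact_mod_cast hN0
    have h5 := mul_right_cancel₀ hNq h4
    exact Fin.ext (by exact_mod_cast h5)
  have hfa : ∀ c a, f c a = ∑ j, ((c j : ℕ) : K) * (N • (e j : Fin m → K) a) := by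
    intro c a
    show ((∑ j, ((((c j : ℕ) : ℚ)) * (N : ℚ)) • e j : V) : Fin m → K) a = _
    rw [Submodule.coe_sum, Finset.sum_apply]
    refine sum_congr rfl fun j _ => ?_
    rw [Submodule.coe_smul_of_tower, Pi.smul_apply, Algebra.smul_def, map_mul, map_natCast, map_intCast,
      zsmul_eq_mul, mul_assoc]
  have hmem : ∀ c, f c ∈ (bx K m B).filter (· ∈ V) := by
    intro c
    rw [mem_filter, mem_bx]
    refine ⟨fun a => ⟨?_, fun φ => ?_⟩, Subtype.mem _⟩
    · rw [hfa]
      refine IsIntegral.sum _ fun j _ => IsIntegral.mul ?_ (hint j a)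
      exact isIntegral_natCast _

    · rw [hfa, map_sum]
      have h1 : ∀ j ∈ (univ : Finset (Fin D)), ‖φ (((c j : ℕ) : K) * (N • (e j : Fin m → K) a))‖ ≤ (Q : ℝ) * M := by
        intro j _
        rw [map_mul, map_natCast, norm_mul, Complex.norm_natCast]
        have h2 : ((c j : ℕ) : ℝ) ≤ Q := by exact_mod_cast Nat.lt_succ_iff.1 (c j).2
        exact mul_le_mul h2 ((hXb j a φ).trans hXM) (norm_nonneg _) (Nat.cast_nonneg _)
      refine (norm_sum_le_of_le _ h1).trans ?_
      rw [sum_const, card_univ, Fintype.card_fin, nsmul_eq_mul]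
      have h3 : D * (Q * M) ≤ B := by
        refine le_trans ?_ hQB
        rw [hM']
        nlinarith
      exact_mod_cast h3
  have hcard : (Q + 1) ^ D ≤ ((bx K m B).filter (· ∈ V)).card := by
    have h1 : (Q + 1) ^ D = (univ.image f).card := by
      rw [card_image_of_injective _ hf, card_univ, Fintype.card_fun, Fintype.card_fin, Fintype.card_fin]
    rw [h1]
    refine card_le_card fun x hx => ?_
    obtain ⟨c, -, rfl⟩ := mem_image.1 hx
    exact hmem c
  have hlt : 1 / (M' : ℝ) * B ≤ ((Q + 1 : ℕ) : ℝ) := by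
    rw [one_div_mul_eq_div, div_le_iff₀ hM'r]
    have h1 : B < (Q + 1) * M' := by
      rw [hQ]
      have := Nat.lt_div_mul_add (a := B) hM'0
      nlinarith
    exact_mod_cast h1.le
  calc (1 / (M' : ℝ) * B) ^ D ≤ (((Q + 1 : ℕ) : ℝ)) ^ D := pow_le_pow_left₀ (by positivity) hlt D
    _ = (((Q + 1) ^ D : ℕ) : ℝ) := by push_cast; ring
    _ ≤ _ := by exact_mod_cast hcard

end Pool.Agent.Q285.MM
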