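import Pool.Agent.Q35.MM.Stm
import Pool.Agent.H548.BL.Core

/-! Project MM of helper35, job AD (helper285). -/

set_option autoImplicit false

namespace Pool.Agent.Q285.MM

open Finset Function Pool.Agent.Q35.MM

/-- job AD -/
theorem ad : S_AD := by
  intro ι _ _ S e m δ hS hδ he Φ hΦ1 hΦ2 D A0 hD
  set a := max m 1 with ha
  have ha1 : 1 ≤ a := le_max_right _ _
  have hma : m ≤ a := le_max_left _ _
  obtain ⟨C0, hC0⟩ := Pool.Agent.H548.BL.exists_scale a ha1 δ hδ
  set C : ℝ := max (2 * 3 ^ a * D) (max (A0 C0) 0) with hC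
  have hCD : 2 * 3 ^ a * D ≤ C := le_max_left _ _
  have hCA : A0 C0 ≤ C := (le_max_left _ _).trans (le_max_right _ _)
  have hC00 : 0 ≤ C := (le_max_right _ _).trans (le_max_right _ _)
  refine ⟨C, hC00, fun F hF0 hFA hst => ?_⟩
  have key : ∀ n : ℕ, ∀ b : ι → ℕ, ∑ l ∈ S, b l ≤ n → (∀ l, 1 ≤ b l) →
      F b ≤ C * Φ b * (∏ l ∈ S, (b l : ℝ)) ^ (2 * δ) := by
    intro n
    induction n with
    | zero =>
      intro b hn hb
      obtain ⟨i, hi⟩ := hS
      have h1 := single_le_sum (f := b) (fun _ _ => Nat.zero_le _) hi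
      have h2 := hb i
      omega
    | succ n ih =>
      intro b hn hb
      obtain ⟨i, hi, hmax⟩ := exists_max_image S b hS
      have hbr : ∀ l, (1 : ℝ) ≤ b l := fun l => by exact_mod_cast hb l
      have hΦ := hΦ1 b hb
      set P : ℝ := ∏ l ∈ S, (b l : ℝ) with hP
      have hPe : P = b i * ∏ l ∈ S.erase i, (b l : ℝ) := by
        rw [hP, mul_prod_erase S (fun l => (b l : ℝ)) hi]
      have hPr1 : 1 ≤ ∏ l ∈ S.erase i, (b l : ℝ) := by
        have h1 : ∏ l ∈ S.erase i, (1 : ℝ) ≤ ∏ l ∈ S.erase i, (b l : ℝ) :=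
          prod_le_prod (fun _ _ => zero_le_one) fun l _ => hbr l
        simpa using h1
      have hbi0 : (0 : ℝ) < b i := by linarith [hbr i]
      have hPb : (b i : ℝ) ≤ P := by
        rw [hPe]
        nlinarith
      have hP1 : 1 ≤ P := (hbr i).trans hPb
      have hP0 : 0 < P := by linarith
      rcases lt_or_ge (b i) C0 with hlt | hge
      · have h1 := hFA b C0 fun l hl => (hmax l hl).trans hlt.le
        have h2 : 1 ≤ P ^ (2 * δ) := Real.one_le_rpow hP1 (by positivity)
        calc F b ≤ C := h1.trans hCA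
          _ = C * 1 * 1 := by ring
          _ ≤ C * Φ b * P ^ (2 * δ) := by gcongr
      · obtain ⟨ρ, q, -, hρ1, hρb, hq1, h1, h2, h3, h4⟩ := hC0 (b i) hge
        have hρr : (1 : ℝ) ≤ ρ := by exact_mod_cast hρ1
        have hρ0 : (0 : ℝ) < ρ := by linarith
        have hq0 : 0 < q := by linarith
        set b' := update b i ρ with hb'
        have hb'1 : ∀ l, 1 ≤ b' l := by
          intro l
          rw [hb']
          rcases eq_or_ne l i with h | h
          · rw [h, update_self]; exact hρ1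
          · rw [update_of_ne h]; exact hb l
        have hΦ' := hΦ1 b' hb'1
        have hsum : ∑ l ∈ S, b' l ≤ n := by
          have h5 : ∑ l ∈ S, b' l < ∑ l ∈ S, b l := by
            refine sum_lt_sum (fun l _ => ?_) ⟨i, hi, ?_⟩
            · rw [hb']
              rcases eq_or_ne l i with h | h
              · rw [h, update_self]; exact hρb.le
              · rw [update_of_ne h]
            · rw [hb', update_self]; exact hρb
          omega
        have hF' := ih b' hsum hb'1
        have hPe' : ∏ l ∈ S, (b' l : ℝ) = ρ * ∏ l ∈ S.erase i, (b l : ℝ) := by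
          rw [← mul_prod_erase S (fun l => (b' l : ℝ)) hi, hb', update_self]
          congr 1
          refine prod_congr rfl fun l hl => ?_
          rw [update_of_ne (ne_of_mem_erase hl)]
        have hPP : ∏ l ∈ S, (b' l : ℝ) ≤ P * (2 / q) := by
          rw [hPe', hPe]
          have h5 : (ρ : ℝ) ≤ b i * (2 / q) := by
            rw [mul_div_assoc', le_div_iff₀ hq0]
            linarith
          calc (ρ : ℝ) * ∏ l ∈ S.erase i, (b l : ℝ) ≤ b i * (2 / q) * ∏ l ∈ S.erase i, (b l : ℝ) := by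
                gcongr
            _ = _ := by ring
        have hPP0 : 0 ≤ ∏ l ∈ S, (b' l : ℝ) := prod_nonneg fun _ _ => Nat.cast_nonneg _
        have h3a : (1 : ℝ) ≤ 3 ^ a := one_le_pow₀ (by norm_num)
        set z : ℝ := (2 / q) ^ δ with hz
        have hz0 : 0 ≤ z := by positivity
        have hz1 : z ≤ 1 := by
          have h5 : 1 * z ≤ 3 ^ a * 2 * z := mul_le_mul_of_nonneg_right (by linarith) hz0
          linarith
        have hPδ : (∏ l ∈ S, (b' l : ℝ)) ^ (2 * δ) ≤ P ^ (2 * δ) * z := by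
          calc (∏ l ∈ S, (b' l : ℝ)) ^ (2 * δ) ≤ (P * (2 / q)) ^ (2 * δ) :=
                Real.rpow_le_rpow hPP0 hPP (by positivity)
            _ = P ^ (2 * δ) * (2 / q) ^ (2 * δ) := Real.mul_rpow hP0.le (by positivity)
            _ = P ^ (2 * δ) * (z * z) := by
                rw [hz, ← Real.rpow_add (by positivity)]
                congr 2
                ring
            _ ≤ P ^ (2 * δ) * (z * 1) := by gcongr
            _ = _ := by ring
        have hei : (3 : ℝ) ^ e i ≤ 3 ^ a := pow_le_pow_right₀ (by norm_num) ((he i).trans hma)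
        have hΦs := hΦ2 b i ρ hb hi hmax hρ1 hρb.le
        rw [← hb'] at hΦs
        have hqm : q ^ m ≤ P ^ δ := by
          calc q ^ m ≤ q ^ a := pow_le_pow_right₀ hq1 hma
            _ ≤ (b i : ℝ) ^ δ := h3
            _ ≤ P ^ δ := Real.rpow_le_rpow hbi0.le hPb hδ.le
        have hstep := hst b i ρ q hb hi hmax hρ1 hρb.le hq1 h1
        rw [← hb'] at hstep
        have hsplit : (3 * (b i : ℝ) / ρ) ^ e i = 3 ^ e i * ((b i : ℝ) / ρ) ^ e i := by
          rw [mul_div_assoc, mul_pow]
        have hPδ2 : P ^ δ * P ^ δ = P ^ (2 * δ) := by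
          rw [← Real.rpow_add hP0]
          congr 1
          ring
        have hfr : 0 ≤ ((b i : ℝ) / ρ) ^ e i := by positivity
        have hΦ0 : 0 ≤ Φ b := by linarith
        have hΦ'0 : 0 ≤ Φ b' := by linarith
        have T1 : (3 * (b i : ℝ) / ρ) ^ e i * F b' ≤ C / 2 * Φ b * P ^ (2 * δ) := by
          calc (3 * (b i : ℝ) / ρ) ^ e i * F b' ≤ (3 * (b i : ℝ) / ρ) ^ e i * (C * Φ b' * (P ^ (2 * δ) * z)) := by
                apply mul_le_mul_of_nonneg_left _ (by positivity)
                refine hF'.trans ?_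
                exact mul_le_mul_of_nonneg_left hPδ (by positivity)
            _ = 3 ^ e i * (Φ b' * ((b i : ℝ) / ρ) ^ e i) * (C * P ^ (2 * δ) * z) := by rw [hsplit]; ring
            _ ≤ 3 ^ a * Φ b * (C * P ^ (2 * δ) * z) := by gcongr
            _ = C / 2 * Φ b * P ^ (2 * δ) * (3 ^ a * 2 * z) := by ring
            _ ≤ C / 2 * Φ b * P ^ (2 * δ) * 1 := by gcongr
            _ = _ := by ring
        have T2 : (3 * (b i : ℝ) / ρ) ^ e i * (D * q ^ m * P ^ δ * Φ b') ≤ C / 2 * Φ b * P ^ (2 * δ) := by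
          calc (3 * (b i : ℝ) / ρ) ^ e i * (D * q ^ m * P ^ δ * Φ b') =
                3 ^ e i * (Φ b' * ((b i : ℝ) / ρ) ^ e i) * (D * (q ^ m * P ^ δ)) := by rw [hsplit]; ring
            _ ≤ 3 ^ a * Φ b * (D * (P ^ δ * P ^ δ)) := by gcongr
            _ = 3 ^ a * D * Φ b * P ^ (2 * δ) := by rw [hPδ2]; ring
            _ ≤ C / 2 * Φ b * P ^ (2 * δ) := by
                gcongr
                linarith
        calc F b ≤ _ := hstep
          _ = (3 * (b i : ℝ) / ρ) ^ e i * F b' + (3 * (b i : ℝ) / ρ) ^ e i * (D * q ^ m * P ^ δ * Φ b') := by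
              ring
          _ ≤ C / 2 * Φ b * P ^ (2 * δ) + C / 2 * Φ b * P ^ (2 * δ) := add_le_add T1 T2
          _ = _ := by ring
  intro b hb
  exact key _ b le_rfl hb

end Pool.Agent.Q285.MM
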